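import Pool.Agent.Helper92.LV.Stmts

/-! Module KLOC (MP_9a3c31_nt): two sided local package at a finite place of a number field. -/

set_option autoImplicit false

namespace Pool.Agent.Helper92.LV

open Filter Topology NumberField Pool.Agent.Helper42.LS Pool.Agent.Helper42.LK
open Pool.Agent.Helper54.LS

theorem st_KLOC (hLB : ST_KLB2) (hLS : ST_KLS2) (hFP : ST_KFP) : ST_KLOC := by
  intro K _ _ v
  obtain ⟨V, hV, hq⟩ := hFP K v
  have hfun : V.nr = fun x : K => v x := funext hV
  have hlq : lq v = Real.log V.q := by rw [lq, hq]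
  obtain ⟨C, hC, hloc⟩ := hLS K V
  refine ⟨C, hC, ?_⟩
  intro A B hD x y hg ε hε1 hε2
  by_cases h6 : v 2 = 1 ∧ v 3 = 1
  · have hε0 : ε = 0 := hε1 h6
    have h2 : V.ord 2 = 0 := (V.nr_eq_one_iff (by norm_num)).1 (by rw [hV]; exact h6.1)
    have h3 : V.ord 3 = 0 := (V.nr_eq_one_iff (by norm_num)).1 (by rw [hV]; exact h6.2)
    obtain ⟨t, n, U, f, h0, hn, hint, hle, hmul, hU1, hU2, hQ, hU3⟩ := hLB K V h2 h3 A B hD x y hg
    rw [hfun] at h0 hle hmul hU3
    simp only [hV] at hU1 hU2 hU3
    subst hε0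
    by_cases hdl : dl (fun x : K => v x) A B = 0
    · refine ⟨0, 0, 1, U, f, le_rfl, by rw [hdl]; simp, le_rfl, ⟨0, by simp⟩,
        fun h => absurd rfl h, fun _ => ⟨rfl, rfl⟩, fun _ _ h => absurd rfl h, ?_, hU2, hQ, ?_⟩
      · intro k hk
        have := hU1 k hk
        rw [this]
        simp
      · intro k hk
        have := hU3 k hk
        rw [hdl] at this
        rw [this]
        simp
    · refine ⟨dl (fun x : K => v x) A B, t, n, U, f, h0, by simp, hn, hint,
        fun h => by rw [hlq]; exact hle h, fun h => absurd h hdl, fun _ _ h => hmul h, ?_, hU2,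
        hQ, ?_⟩
      · intro k hk
        have := hU1 k hk
        rw [this]
        simp
      · intro k hk
        have := hU3 k hk
        rw [this]
        simp
  · have hε0 : ε = C := hε2 h6
    obtain ⟨w, t, n, U, f, h0, hw, hn, hint, hle, hU1, hU2, hQ, hU3⟩ := hloc A B hD x y hg
    rw [hfun] at hw
    simp only [hV] at hU1 hU2 hU3
    rw [hε0]
    by_cases hw0 : w = 0
    · refine ⟨0, 0, 1, U, f, le_rfl, by rw [← hw0]; exact hw, le_rfl, ⟨0, by simp⟩,
        fun h => absurd rfl h, fun _ => ⟨rfl, rfl⟩, fun h2 h3 => absurd ⟨h2, h3⟩ h6, hU1, hU2,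
        hQ, ?_⟩
      intro k hk
      have := hU3 k hk
      rw [hw0] at this
      simpa using this
    · exact ⟨w, t, n, U, f, h0, hw, hn, hint, fun h => by rw [hlq]; exact hle h,
        fun h => absurd h hw0, fun h2 h3 => absurd ⟨h2, h3⟩ h6, hU1, hU2, hQ, hU3⟩

end Pool.Agent.Helper92.LV
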